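import Mathlib
import Pool.Agent.K3h5.FF.Stm

/-!
# FF brick DET: deterministic facts on the root state
-/

set_option autoImplicit false

open MeasureTheory Filter Topology ProbabilityTheory Set

namespace Pool.Agent.K3h97.FF

open Pool.Agent.K3h5.FF

theorem root_front {y : Idx → ℝ} (hy : Nice y) (z : ℝ) (j : ℕ) :
    rootS y z = some (Sum.inr j) ↔ z = y (Sum.inr (Sum.inr j)) := by
  classical
  obtain ⟨-, hinj, -⟩ := hy
  constructor
  · intro h
    unfold rootS at h
    split_ifs at h with h1 h2
    · have h3 := h1.choose_spec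
      have h4 : h1.choose = j := Sum.inr_injective (Option.some_injective _ h)
      rwa [h4] at h3
    · exact absurd (Option.some_injective _ h) (by simp)
  · intro h
    have h1 : ∃ j : ℕ, z = y (Sum.inr (Sum.inr j)) := ⟨j, h⟩
    have h2 : h1.choose = j := by
      have h3 := h.symm.trans h1.choose_spec
      exact (Sum.inr_injective (hinj h3)).symm
    unfold rootS
    rw [dif_pos h1, h2]

theorem root_pts {y : Idx → ℝ} (hy : Nice y) (z : ℝ) (k : ℤ) :
    rootS y z = some (Sum.inl k) ↔ z ∈ pts y k := by
  classical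
  obtain ⟨-, hinj, -⟩ := hy
  constructor
  · intro h
    unfold rootS at h
    split_ifs at h with h1 h2
    · exact absurd (Option.some_injective _ h) (by simp)
    · have h3 := h2.choose_spec
      have h4 : h2.choose = k := Sum.inl_injective (Option.some_injective _ h)
      rwa [h4] at h3
  · intro h
    obtain ⟨m, hm, hz⟩ := h
    have h1 : ¬ ∃ j : ℕ, z = y (Sum.inr (Sum.inr j)) := by
      rintro ⟨j, hj⟩
      rw [hz] at hj
      have := hinj hj
      simp at this
    have h2 : ∃ k : ℤ, z ∈ pts y k := ⟨k, m, hm, hz⟩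
    have h3 : h2.choose = k := by
      obtain ⟨m', -, hz'⟩ := h2.choose_spec
      have h4 := Sum.inl_injective (hinj (hz.symm.trans hz'))
      exact (Prod.mk.inj h4).1.symm
    unfold rootS
    rw [dif_neg h1, dif_pos h2, h3]

theorem ix_inl {l : ℕ} {u : Fin l → Label} (c : Fin l → ℕ) {i : Fin l} {k : ℤ}
    (h : u i = Sum.inl k) : ix u c i = Sum.inl (k, c i) := by
  unfold ix
  rw [h]

theorem ix_inr {l : ℕ} {u : Fin l → Label} (c : Fin l → ℕ) {i : Fin l} {j : ℕ}
    (h : u i = Sum.inr j) : ix u c i = Sum.inr j := by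
  unfold ix
  rw [h]

theorem t_DET : S_DET := by
  classical
  intro y hy
  have hF := root_front hy
  have hP := root_pts hy
  obtain ⟨h01, hinj, hN⟩ := hy
  refine ⟨hF, hP, ?_, ?_, ?_, ?_⟩
  · intro j
    exact ⟨y (Sum.inr (Sum.inr j)), (hF _ j).2 rfl, fun z hz => (hF z j).1 hz⟩
  · intro S
    have h1 : {x | ∃ l ∈ Win S, LabS (rootS y) l x} ⊆
        ⋃ l ∈ ((Win S : Finset Label) : Set Label), {x | LabS (rootS y) l x} := by
      rintro x ⟨l, hl, hx⟩
      exact Set.mem_biUnion (Finset.mem_coe.2 hl) hx
    refine Set.Finite.subset (Set.Finite.biUnion (Win S).finite_toSet fun l _ => ?_) h1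
    rcases l with k | j
    · obtain ⟨N, hNk⟩ := hN k
      refine ((Set.finite_Iio N).image fun m => y (Sum.inr (Sum.inl (k, m)))).subset ?_
      intro x hx
      obtain ⟨m, hm, hz⟩ := (hP x k).1 hx
      refine ⟨m, ?_, hz.symm⟩
      rw [hNk] at hm
      exact_mod_cast hm
    · refine (Set.finite_singleton (y (Sum.inr (Sum.inr j)))).subset ?_
      intro x hx
      exact (hF x j).1 hx
  · intro l u _
    set A : Set (Fin l → ℕ) := {c | c ∈ Asg u ∧ Function.Injective (ix u c) ∧
      (∀ i k, u i = Sum.inl k → (c i : ℝ) < y (Sum.inl k)) ∧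
      StrictMono (fun i => y (Sum.inr (ix u c i)))} with hA
    have himg : occ (LabS (rootS y)) u = (fun c i => y (Sum.inr (ix u c i))) '' A := by
      ext z
      constructor
      · rintro ⟨hz1, hz2⟩
        have hex : ∀ i, ∃ m : ℕ, (∀ k, u i = Sum.inl k → (m : ℝ) < y (Sum.inl k) ∧
            z i = y (Sum.inr (Sum.inl (k, m)))) ∧ ∀ j, u i = Sum.inr j → m = 0 := by
          intro i
          rcases hu : u i with k | j
          · have h2 := hz2 i
            rw [hu] at h2
            obtain ⟨m, hm, hz⟩ := (hP (z i) k).1 h2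
            refine ⟨m, fun k' hk' => ?_, fun j hj => by simp at hj⟩
            have := Sum.inl_injective hk'
            subst this
            exact ⟨hm, hz⟩
          · exact ⟨0, fun k hk => by simp at hk, fun _ _ => rfl⟩
        choose c hc1 hc2 using hex
        have hzc : (fun i => y (Sum.inr (ix u c i))) = z := by
          funext i
          rcases hu : u i with k | j
          · rw [ix_inl c hu]
            exact (hc1 i k hu).2.symm
          · rw [ix_inr c hu]
            have h2 := hz2 i
            rw [hu] at h2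
            exact ((hF (z i) j).1 h2).symm
        refine ⟨c, ⟨hc2, ?_, fun i k hk => (hc1 i k hk).1, ?_⟩, hzc⟩
        · intro i i' h
          apply hz1.injective
          rw [← hzc]
          change y (Sum.inr (ix u c i)) = y (Sum.inr (ix u c i'))
          rw [h]
        · rw [hzc]
          exact hz1
      · rintro ⟨c, ⟨hc1, hc2, hc3, hc4⟩, rfl⟩
        refine ⟨hc4, fun i => ?_⟩
        rcases hu : u i with k | j
        · refine (hP _ k).2 ⟨c i, hc3 i k hu, ?_⟩
          change y (Sum.inr (ix u c i)) = _
          rw [ix_inl c hu]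
        · refine (hF _ j).2 ?_
          change y (Sum.inr (ix u c i)) = _
          rw [ix_inr c hu]
    rw [himg]
    refine Set.InjOn.ncard_image ?_
    intro c hc c' hc' h
    funext i
    have h1 : ix u c i = ix u c' i := hinj (congrFun h i)
    rcases hu : u i with k | j
    · rw [ix_inl c hu, ix_inl c' hu] at h1
      exact (Prod.mk.inj (Sum.inl_injective h1)).2
    · rw [hc.1 i j hu, hc'.1 i j hu]
  · intro l u hu
    unfold FrontInj at hu
    push Not at hu
    obtain ⟨i, i', j, h1, h2, hne⟩ := hu
    have h3 : occ (LabS (rootS y)) u = ∅ := by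
      rw [Set.eq_empty_iff_forall_notMem]
      rintro z ⟨hz1, hz2⟩
      have e1 := hz2 i
      have e2 := hz2 i'
      rw [h1] at e1
      rw [h2] at e2
      have e3 := (hF _ j).1 e1
      have e4 := (hF _ j).1 e2
      exact hne (hz1.injective (e3.trans e4.symm))
    rw [h3, Set.ncard_empty]

end Pool.Agent.K3h97.FF
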